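import Mathlib
import Pool.Agent.Q46.PqD

/-!
# Twice semidifferentiable piecewise quadratic functions are piecewise linear-quadratic

Let `f : ℝⁿ → ℝ` be a continuous selection of finitely many quadratic functions (nothing is required
of the sets on which `f` equals a given one).  If `f` is twice semidifferentiable at every point then
`ℝⁿ` is a finite union of polyhedra on each of which `f` is one of the given quadratic functions.

Proof.  Take the arrangement of the hyperplanes that come from those differences `q_j - q_k` that are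
products of two affine functions.  Off the arrangement `f` is locally one of the `q_i`: otherwise
choose a bad point with the least number of active indices.  A non-factorable difference `g` of two
active functions vanishes at the bad points near it.  Either all these points are critical for `g`, so
that they lie in an affine subspace of codimension at least two, which does not separate; or there is
one with `grad g ≠ 0`, and then `f` is `q_a` on one side of the hypersurface `g = 0` and `q_b` on the
other side.  Comparing the second order quotients along `w + s τ grad g` for `s` large and `-s` large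
shows that `q_a - q_b` vanishes on the tangent hyperplane, so it is a product of two affine functions,
which is excluded off the arrangement.
-/

set_option autoImplicit false

open Filter Set Topology

namespace Pool.Agent.Results.MP_83d7ff_an.SemidiffPLQ

/-- Quadratic functions on `ℝⁿ`: `q(x) = 1/2 xᵀ Q x + bᵀ x + c`. -/
def IsQuadratic {n : ℕ} (q : EuclideanSpace ℝ (Fin n) → ℝ) : Prop :=
  ∃ (Q : Matrix (Fin n) (Fin n) ℝ) (b : Fin n → ℝ) (c : ℝ), ∀ x,
    q x = 1 / 2 * (∑ i, ∑ j, x i * Q i j * x j) + ∑ i, b i * x i + c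

/-- A polyhedron: the intersection of finitely many closed half-spaces `{x | ⟨a, x⟩ ≤ b}`, `a ≠ 0`. -/
def IsPolyhedron {n : ℕ} (P : Set (EuclideanSpace ℝ (Fin n))) : Prop :=
  ∃ (m : ℕ) (a : Fin m → EuclideanSpace ℝ (Fin n)) (b : Fin m → ℝ), (∀ i, a i ≠ 0) ∧
    P = {x | ∀ i, inner ℝ (a i) x ≤ b i}

/-- Piecewise quadratic functions: continuous selections of finitely many quadratic functions. -/
def IsPQ {n : ℕ} (f : EuclideanSpace ℝ (Fin n) → ℝ) : Prop :=
  Continuous f ∧ ∃ (I : ℕ) (q : Fin I → EuclideanSpace ℝ (Fin n) → ℝ),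
    (∀ i, IsQuadratic (q i)) ∧ ∀ x, ∃ i, f x = q i x

/-- Piecewise linear-quadratic functions: a quadratic function on each of finitely many polyhedra that
cover `ℝⁿ`. -/
def IsPLQ {n : ℕ} (f : EuclideanSpace ℝ (Fin n) → ℝ) : Prop :=
  Continuous f ∧ ∃ (I : ℕ) (q : Fin I → EuclideanSpace ℝ (Fin n) → ℝ)
    (P : Fin I → Set (EuclideanSpace ℝ (Fin n))),
    (∀ i, IsQuadratic (q i)) ∧ (∀ i, IsPolyhedron (P i)) ∧ (⋃ i, P i) = univ ∧
      ∀ i, ∀ x ∈ P i, f x = q i x

/-- `f` is semidifferentiable at `x` with semiderivative `d`. -/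
def HasSemiderivAt {n : ℕ} (f : EuclideanSpace ℝ (Fin n) → ℝ)
    (d : EuclideanSpace ℝ (Fin n) → ℝ) (x : EuclideanSpace ℝ (Fin n)) : Prop :=
  ∀ v, Tendsto (fun p : EuclideanSpace ℝ (Fin n) × ℝ => (f (x + p.2 • p.1) - f x) / p.2)
    (𝓝 v ×ˢ 𝓝[>] 0) (𝓝 (d v))

/-- `f` is twice semidifferentiable at `x`. -/
def TwiceSemidifferentiableAt {n : ℕ} (f : EuclideanSpace ℝ (Fin n) → ℝ)
    (x : EuclideanSpace ℝ (Fin n)) : Prop :=
  ∃ d : EuclideanSpace ℝ (Fin n) → ℝ, HasSemiderivAt f d x ∧
    ∀ w, ∃ L : ℝ, Tendsto (fun p : EuclideanSpace ℝ (Fin n) × ℝ =>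
      (f (x + p.2 • p.1) - f x - p.2 * d p.1) / p.2 ^ 2) (𝓝 w ×ˢ 𝓝[>] 0) (𝓝 L)

theorem toQd {n : ℕ} {q : EuclideanSpace ℝ (Fin n) → ℝ} (hq : IsQuadratic q) :
    ∃ p : Pool.Agent.Q46.PQ.Qd (EuclideanSpace ℝ (Fin n)), ∀ x, p.fn x = q x := by
  obtain ⟨Q, b, c, h⟩ := hq
  set S : Matrix (Fin n) (Fin n) ℝ := (1 / 2 : ℝ) • (Q + Q.transpose) with hS
  have hval : ∀ x y : EuclideanSpace ℝ (Fin n),
      inner ℝ (Matrix.toEuclideanLin S x) y = ∑ i, ∑ j, S i j * x j * y i := by
    intro x y
    rw [PiLp.inner_apply]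
    refine Finset.sum_congr rfl fun i _ => ?_
    simp only [Matrix.toEuclideanLin_apply, Matrix.mulVec, dotProduct, RCLike.inner_apply,
      conj_trivial]
    rw [Finset.mul_sum]
    refine Finset.sum_congr rfl fun j _ => ?_
    ring
  have hsymm : ∀ i j, S i j = S j i := by
    intro i j
    simp only [hS, Matrix.smul_apply, Matrix.add_apply, Matrix.transpose_apply, smul_eq_mul]
    ring
  refine ⟨⟨(Matrix.toEuclideanLin S).toContinuousLinearMap, ?_,
    (WithLp.toLp 2 b : EuclideanSpace ℝ (Fin n)), c⟩, ?_⟩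
  · intro x y
    rw [real_inner_comm]
    simp only [LinearMap.coe_toContinuousLinearMap']
    rw [real_inner_comm, hval, real_inner_comm, hval, Finset.sum_comm]
    refine Finset.sum_congr rfl fun i _ => Finset.sum_congr rfl fun j _ => ?_
    rw [hsymm j i]
    ring
  · intro x
    rw [h x]
    simp only [Pool.Agent.Q46.PQ.Qd.fn, LinearMap.coe_toContinuousLinearMap']
    rw [hval]
    have e1 : ∑ i, ∑ j, S i j * x j * x i = ∑ i, ∑ j, x i * Q i j * x j := by
      have e2 : ∑ i, ∑ j, S i j * x j * x i =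
          1 / 2 * ∑ i, ∑ j, x i * Q i j * x j + 1 / 2 * ∑ i, ∑ j, x i * Q j i * x j := by
        rw [Finset.mul_sum, Finset.mul_sum, ← Finset.sum_add_distrib]
        refine Finset.sum_congr rfl fun i _ => ?_
        rw [Finset.mul_sum, Finset.mul_sum, ← Finset.sum_add_distrib]
        refine Finset.sum_congr rfl fun j _ => ?_
        simp only [hS, Matrix.smul_apply, Matrix.add_apply, Matrix.transpose_apply, smul_eq_mul]
        ring
      have e3 : ∑ i, ∑ j, x i * Q j i * x j = ∑ i, ∑ j, x i * Q i j * x j := by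
        rw [Finset.sum_comm]
        refine Finset.sum_congr rfl fun i _ => Finset.sum_congr rfl fun j _ => ?_
        ring
      rw [e2, e3]; ring
    have e4 : inner ℝ (WithLp.toLp 2 b : EuclideanSpace ℝ (Fin n)) x = ∑ i, b i * x i := by
      rw [PiLp.inner_apply]
      refine Finset.sum_congr rfl fun i _ => ?_
      simp [mul_comm]
    rw [e1, e4]

/-- **Theorem.** Every piecewise quadratic function `f : ℝⁿ → ℝ` that is twice semidifferentiable at
every point of `ℝⁿ` is piecewise linear-quadratic. -/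
theorem result (n : ℕ) (f : EuclideanSpace ℝ (Fin n) → ℝ) (hf : IsPQ f)
    (hts : ∀ x, TwiceSemidifferentiableAt f x) : IsPLQ f := by
  obtain ⟨hc, I, q, hq, hsel⟩ := hf
  choose p hp using fun i => toQd (hq i)
  obtain ⟨N, idx, P, hP, hcov, hfun⟩ := Pool.Agent.Q46.PQ.assemble (q := p) hc
    (fun x => by
      obtain ⟨i, hi⟩ := hsel x
      exact ⟨i, by rw [hp]; exact hi⟩)
    (fun x => by
      obtain ⟨d, hd, h2⟩ := hts x
      exact ⟨d, hd, h2⟩)
  refine ⟨hc, N, fun m => q (idx m), P, fun m => hq _, fun m => hP m, hcov, ?_⟩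
  intro m x hx
  rw [hfun m x hx, hp]

end Pool.Agent.Results.MP_83d7ff_an.SemidiffPLQ
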